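import Pool.Agent.helper60.EPT.SpecS

set_option autoImplicit false

/-!
Row sr:RFX (MP_2b48c2_lc): folding with a body whose time is bounded by another function.
-/

namespace Pool.Agent.EPT

open D

theorem RFX_drop (L : List D) (i : ℕ) : (ofList (L.drop i)).size ≤ (ofList L).size := by
  induction L generalizing i with
  | nil => simp
  | cons b L ih =>
    cases i with
    | zero => simp
    | succ i =>
      have h := ih i
      simp only [List.drop_succ_cons, ofList_cons, size_cons]
      omega

theorem RFX_len (L : List D) : L.length ≤ (ofList L).size := by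
  induction L with
  | nil => simp
  | cons b L ih =>
    simp only [List.length_cons, ofList_cons, size_cons]
    omega

theorem RFX_head (L : List D) (i : ℕ) :
    (ofList (L.drop i)).fst = nil ∨ (ofList (L.drop i)).fst ∈ L := by
  rcases h : L.drop i with _ | ⟨b, M⟩
  · left
    simp
  · right
    rw [ofList_cons, fst_cons]
    exact List.mem_of_mem_drop (h ▸ List.mem_cons_self)

/-- The step. -/
def RFX_g (f : D → D) (s : D) : D :=
  cons (f (cons s.fst (cons s.snd.fst.fst s.snd.snd))) (cons s.snd.fst.snd s.snd.snd)

theorem RFX_iter (f : D → D) (L : List D) (A E : D) (i : ℕ) (hi : i ≤ L.length) :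
    (RFX_g f)^[i] (cons A (cons (ofList L) E)) =
      cons ((L.take i).foldl (fun acc h => f (cons acc (cons h E))) A)
        (cons (ofList (L.drop i)) E) := by
  induction i with
  | zero => simp
  | succ i ih =>
    have hi' : i < L.length := hi
    rw [Function.iterate_succ_apply', ih hi'.le, List.drop_eq_getElem_cons hi',
      List.take_succ_eq_append_getElem hi', List.foldl_append]
    simp only [RFX_g, ofList_cons, fst_cons, snd_cons, List.foldl_cons, List.foldl_nil]

/-- The bound for the step. -/
def RFX_S (S' : D → ℕ) (s : D) : ℕ :=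
  S' (cons s.fst (cons s.snd.fst.fst s.snd.snd)) + s.size

theorem RFX (hPBC : PBC_stmt) (hRBA : RBA_stmt) (hRCG : RCG_stmt) (hRCO : RCO_stmt) (hRWX : RWX_stmt) : RFX_stmt := by
  intro S S' hS f l e a hf hl he ha hB
  obtain ⟨B, hB1, hB2, hB3⟩ := hB
  obtain ⟨pconst, pself, padd, ppow, pmono, ptrans⟩ := hPBC
  obtain ⟨bid, bfst, bsnd, beq⟩ := hRBA
  obtain ⟨c1, c2, c3, c4⟩ := hRCG
  have hss : PB size size := pself size
  have hid : FP fun x => x := (bid size hss).1
  have hfst : FP fun x => x.fst := c2 size _ _ bfst hid
  have hsnd : FP fun x => x.snd := c2 size _ _ bsnd hid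
  have hsf : FP fun x => x.snd.fst := c2 size _ _ bfst hsnd
  have hsff : FP fun x => x.snd.fst.fst := c2 size _ _ bfst hsf
  have hsfs : FP fun x => x.snd.fst.snd := c2 size _ _ bsnd hsf
  have hsns : FP fun x => x.snd.snd := c2 size _ _ bsnd hsnd
  have hin : FP fun x => cons x.fst (cons x.snd.fst.fst x.snd.snd) :=
    (hRCO size hss _ _ hfst ((hRCO size hss _ _ hsff hsns).1)).1
  have hSsize : PB (RFX_S S') size :=
    pmono (RFX_S S') size (RFX_S S') (pself _) (fun x => Nat.le_add_left _ _)
  have hSS : PB (RFX_S S') (fun x => S' (cons x.fst (cons x.snd.fst.fst x.snd.snd))) :=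
    pmono (RFX_S S') _ (RFX_S S') (pself _) (fun x => Nat.le_add_right _ _)
  have hin' : RT (RFX_S S') fun x => cons x.fst (cons x.snd.fst.fst x.snd.snd) :=
    c3 size (RFX_S S') _ hin hSsize
  have hff : RT (RFX_S S') fun x => f (cons x.fst (cons x.snd.fst.fst x.snd.snd)) :=
    c1 (RFX_S S') S' f _ hf hin' hSS
  have hg : RT (RFX_S S') (RFX_g f) :=
    (hRCO (RFX_S S') hSsize _ _ hff ((hRCO (RFX_S S') hSsize _ _
      (c3 size (RFX_S S') _ hsfs hSsize) (c3 size (RFX_S S') _ hsns hSsize)).1)).1
  have hc : RT (RFX_S S') fun x => x.snd.fst := c3 size (RFX_S S') _ hsf hSsize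
  have hstart : RT S fun x => cons (a x) (cons (l x) (e x)) :=
    (hRCO S hS _ _ ha ((hRCO S hS _ _ hl he).1)).1
  have hkey := hRWX S (RFX_S S') hS (fun x => x.snd.fst) (RFX_g f)
    (fun x => cons (a x) (cons (l x) (e x)))
    (fun x => (RFX_g f)^[(l x).toList.length] (cons (a x) (cons (l x) (e x)))) hc hg hstart
    ⟨fun x => B x + ((B x + (l x).size) + ((e x).size + 2)),
      (padd S _ _ hB1 (padd S _ _ (padd S _ _ hB1 (c4 S _ hl)).1
        (padd S _ _ (c4 S _ he) (pconst S 2)).1).1).1, by
      intro x
      have hlen : (l x).toList.length ≤ (l x).size := by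
        have h := RFX_len (l x).toList
        rwa [ofList_toList] at h
      refine ⟨(l x).toList.length, ?_, rfl, ?_, ?_, ?_⟩
      · change (l x).toList.length ≤ B x + ((B x + (l x).size) + ((e x).size + 2))
        omega
      · have h := RFX_iter f (l x).toList (a x) (e x) _ le_rfl
        rw [ofList_toList] at h
        change ((RFX_g f)^[(l x).toList.length] (cons (a x) (cons (l x) (e x)))).snd.fst = nil
        rw [h]
        simp
      · intro i hi
        have h := RFX_iter f (l x).toList (a x) (e x) i hi.le
        rw [ofList_toList] at h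
        change ((RFX_g f)^[i] (cons (a x) (cons (l x) (e x)))).snd.fst ≠ nil
        rw [h, List.drop_eq_getElem_cons hi, snd_cons, fst_cons, ofList_cons]
        exact fun hh => by cases hh
      · intro i hi
        have h := RFX_iter f (l x).toList (a x) (e x) i hi
        rw [ofList_toList] at h
        have h1 := hB2 x ((l x).toList.take i) (List.take_prefix _ _)
        have h2 := RFX_drop (l x).toList i
        rw [ofList_toList] at h2
        have h3 := hB3 x ((l x).toList.take i) (ofList ((l x).toList.drop i)).fst
          (RFX_head _ _) (List.take_prefix _ _)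
        rw [h]
        unfold RFX_S
        simp only [fst_cons, snd_cons, size_cons]
        constructor <;> omega⟩
  have hres := c2 S _ _ bfst hkey
  have hfun : (fun x => (l x).toList.foldl (fun acc h => f (cons acc (cons h (e x)))) (a x)) =
      fun x => ((RFX_g f)^[(l x).toList.length] (cons (a x) (cons (l x) (e x)))).fst := by
    funext x
    have h := RFX_iter f (l x).toList (a x) (e x) _ le_rfl
    rw [ofList_toList] at h
    rw [h]
    simp
  rw [hfun]
  exact hres

end Pool.Agent.EPT
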